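import Pool.Agent.H17.CF.SO
import Pool.Agent.H17.CF.FX.SetG
import Pool.Agent.H7.IG.Defs

/-!
# MP_9b819f_lc: cardinals of types (a) and (b) in a model `N` of set theory
-/

set_option autoImplicit false
set_option linter.unusedVariables false
set_option linter.unusedSectionVars false
set_option linter.unusedSimpArgs false
set_option linter.unusedTactic false
set_option linter.unreachableTactic false

open Pool.Agent.H17.Omega Pool.Agent.H17.Omega.CTM Pool.Agent.H52.GC Pool.Agent.H7.IG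

namespace Pool.Agent.H17.CF

/-- `κ` is a cardinal in `N`: no function of `N` maps a smaller ordinal onto `κ`. -/
def IsCardN (N : Set ZFSet.{0}) (κ : Ordinal.{0}) : Prop :=
  κ.toZFSet ∈ N ∧ ∀ α < κ, ¬ ∃ f ∈ N, Onto f α.toZFSet κ.toZFSet

/-- `κ` is regular in `N`: every function of `N` from a smaller ordinal to `κ` is bounded in `κ`. -/
def IsRegN (N : Set ZFSet.{0}) (κ : Ordinal.{0}) : Prop :=
  ∀ α < κ, ∀ f ∈ N, Fn f α.toZFSet κ.toZFSet → ∃ β < κ, ∀ x y, ZFSet.pair x y ∈ f → y ∈ β.toZFSet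

/-- `κ` is a limit cardinal in `N`: the cardinals below `κ` are unbounded in `κ`. -/
def IsLimN (N : Set ZFSet.{0}) (κ : Ordinal.{0}) : Prop := ∀ α < κ, ∃ ν, α < ν ∧ ν < κ ∧ IsCardN N ν

/-- `κ` has cofinality `ω` in `N`: some function of `N` from `ω` to `κ` is unbounded in `κ`. -/
def CofOmN (N : Set ZFSet.{0}) (κ : Ordinal.{0}) : Prop :=
  ∃ f ∈ N, Fn f omZ κ.toZFSet ∧ ∀ β < κ, ∃ x y, ZFSet.pair x y ∈ f ∧ β.toZFSet ∈ y

/-- In `N` there is a `κ`-complete nonprincipal ultrafilter on `κ`. -/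
def IsMeasN (N : Set ZFSet.{0}) (κ : Ordinal.{0}) : Prop :=
  ∃ U ∈ N, (∀ X ∈ U, X ⊆ κ.toZFSet) ∧
    (∀ X ∈ N, X ⊆ κ.toZFSet → (X ∈ U ↔ κ.toZFSet \ X ∉ U)) ∧
    (∀ X ∈ U, ∀ Y ∈ N, X ⊆ Y → Y ⊆ κ.toZFSet → Y ∈ U) ∧
    (∀ x ∈ κ.toZFSet, ({x} : ZFSet.{0}) ∉ U) ∧
    ∀ α < κ, ∀ f ∈ N, Fn f α.toZFSet U →
      ZFSet.sep (fun x => ∀ ξ X, ZFSet.pair ξ X ∈ f → x ∈ X) κ.toZFSet ∈ U

/-- Type (a): `κ` is an uncountable regular limit cardinal that is not measurable, in `N`. -/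
def TypeA (N : Set ZFSet.{0}) (κ : Ordinal.{0}) : Prop :=
  Ordinal.omega0 < κ ∧ IsCardN N κ ∧ IsRegN N κ ∧ IsLimN N κ ∧ ¬ IsMeasN N κ

/-- Type (b): `κ` is a singular cardinal of cofinality `ω`, in `N` (i.e. `κ > ω` is a cardinal of
cofinality `ω`). -/
def TypeB (N : Set ZFSet.{0}) (κ : Ordinal.{0}) : Prop :=
  Ordinal.omega0 < κ ∧ IsCardN N κ ∧ CofOmN N κ

end Pool.Agent.H17.CF
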