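import Pool.Agent.H17.CF.G.Defs
import Pool.Agent.H17.CF.F.Bkk
import Pool.Agent.H17.CF.F.Nam

/-!
# CF-G2: `κ` is not measurable in the extension

`exists_reals`: in `N = M[G]` there is a function `r` on `κ` with values subsets of `ω`, pairwise different.
PROOF. For `μ < κ` let `ρ = row μ 0` and `r(μ)` = the set of the `n ∈ ω` such that for some `q ∈ G` with entries `ent ρ ω F`,
`ent ρ (ω+1+n) F' ∈ q`: `∅ ∈ symZ F F'` (the ordinal `0 = ∅`, which is an element of `ω` and of all levels). The levels `ω` and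
`ω + 1 + n` are different elements of `LvZ Ω` (`ω + k < Ω`). This does not depend on `q`: for two such `q, q₁ ∈ G` take `u ∈ G`
below both; the translations `K, K₁` satisfy `F △ (K_ρ ∩ ω) = F₁ △ (K₁ρ ∩ ω)` etc., and `0` is in `K_ρ ∩ ω` iff it is in
`K_ρ ∩ (ω+1+n)`: so `0 ∈ F △ F'` iff `0 ∈ F₁ △ F₁'`.
`r ∈ N` by separation. `r(μ) ≠ r(ν)` for `μ ≠ ν`: by genericity: the set of the `q` such that for some `n` there are entries
of `q` at `ω`, `ω + 1 + n` in both rows, `F, F'` and `H, H'`, with `0 ∈ symZ F F'` and `0 ∉ symZ H H'`, is dense in `(Sn lam, ≤_∅)`: given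
`p ∈ Sn lam` add entries at `ω` in both rows (`add_any`), choose `n` such that `ω + 1 + n` does not occur in the two rows of `p`
(`p` is finite) and add suitable values (`add_tree` with values `∅` or `{0}`).
`not_meas`: let `U ∈ N` be a `κ`-complete nonprincipal ultrafilter on `κ` and `r` as above. For `n ∈ ω` let `X_n = {μ < κ : n ∈ r(μ)}`,
`Y_n` = the one of `X_n`, `κ \ X_n` that is in `U`. The function `n ↦ Y_n` is in `N` and maps `ω < κ` to `U`; by completeness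
`Y = {μ : ∀ n, μ ∈ Y_n} ∈ U`. Two elements of `Y` have the same `r(μ)`, so `Y` has at most one element. If `Y = {x}`: contradiction to
nonprincipal; if `Y = ∅`: `κ \ κ = ∅ ∈ U`, so `κ ∉ U`, but `∅ ⊆ κ` gives `κ ∈ U`: contradiction.
-/

set_option autoImplicit false
set_option linter.unusedVariables false
set_option linter.unusedSectionVars false
set_option linter.unusedSimpArgs false
set_option linter.unusedTactic false
set_option linter.unreachableTactic false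

open Pool.Agent.H17.Omega Pool.Agent.H17.Omega.CTM Pool.Agent.H52.GC Pool.Agent.H7.IG

namespace Pool.Agent.H17.CF

variable {M : Set ZFSet.{0}} {κ Ω lam : Ordinal.{0}} {s : ZFSet.{0}} {G : Set ZFSet.{0}}

/-- `q` decides the parity at the levels `ω` and `L(n)` of the row `(μ, 0)`. -/
def MsQ (b : Prop) (L μ n q : ZFSet.{0}) : Prop :=
  ∃ ρ₁ y₁ F, ent ρ₁ y₁ F ∈ q ∧ (ρ₁ = row μ 0 ∧ y₁ = omZ ∧ ∃ ρ₂ y₂ F', ent ρ₂ y₂ F' ∈ q ∧
    (ρ₂ = row μ 0 ∧ ZFSet.pair n y₂ ∈ L ∧ (((∅ : ZFSet.{0}) ∈ F ↔ (∅ : ZFSet.{0}) ∈ F') ↔ b)))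

theorem Df.MsQ {N : Set ZFSet.{0}} {hN : CTM N} {n : ℕ} (b : Prop) {L : ZFSet.{0}} (hL : L ∈ N)
    {m k q : (Fin n → N) → ZFSet.{0}} (hm : PD hN m) (hk : PD hN k) (hq : PD hN q) :
    hN.Dfn (fun v => MsQ b L (m v) (k v) (q v)) := by
  refine Df.exEnt (q := q) (P := fun v ρ₁ y₁ F => ρ₁ = CF.row (m v) 0 ∧ y₁ = Omega.omZ ∧ ∃ ρ₂ y₂ F',
    CF.ent ρ₂ y₂ F' ∈ q v ∧ (ρ₂ = CF.row (m v) 0 ∧ ZFSet.pair (k v) y₂ ∈ L ∧
      (((∅ : ZFSet.{0}) ∈ F ↔ (∅ : ZFSet.{0}) ∈ F') ↔ b))) hq ?_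
  refine Dfn.and (Df.eq (PD.var _) (PD.row hm.lift.lift.lift 0)) (Dfn.and (Df.eq (PD.var _) PD.omZ) ?_)
  refine Df.exEnt (q := fun v : Fin (n + 3) → N => q (fun i => v i.castSucc.castSucc.castSucc))
    (P := fun v ρ₂ y₂ F' => ρ₂ = CF.row (m (fun i => v i.castSucc.castSucc.castSucc)) 0 ∧
      ZFSet.pair (k (fun i => v i.castSucc.castSucc.castSucc)) y₂ ∈ L ∧
      (((∅ : ZFSet.{0}) ∈ (v (Fin.last (n + 2))).1 ↔ (∅ : ZFSet.{0}) ∈ F') ↔ b)) hq.lift.lift.lift ?_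
  refine Dfn.and (Df.eq (PD.var _) (PD.row hm.lift.lift.lift.lift.lift.lift 0)) (Dfn.and
    (Df.mem (PD.pair hk.lift.lift.lift.lift.lift.lift (PD.var _)) (PD.const hL)) ?_)
  exact Dfn.iff (Dfn.iff (Df.mem (PD.const hN.empty_mem) (PD.var _)) (Df.mem (PD.const hN.empty_mem) (PD.var _)))
    (Dfn.const b)

theorem ms_empty_omZ : (∅ : ZFSet.{0}) ∈ (omZ : ZFSet.{0}) := natZ_mem_omZ 0

/-- A sequence of levels above `ω`. -/
theorem ms_levels (hM : CTM M) (hΩ : IsOm1 M Ω) : ∃ g : ℕ → ZFSet.{0}, seqZ g ∈ M ∧ Function.Injective g ∧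
    (∀ n, g n ∈ LvZ Ω) ∧ (∀ n, (∅ : ZFSet.{0}) ∈ g n) := by
  have h1 : Ordinal.omega0 < Ω := by
    rcases (om_le hM hΩ).lt_or_eq with h | h
    · exact h
    · exfalso
      refine hΩ.unc ?_
      rw [← h, ← card_omZ]
      exact ctb_om hM
  have h2 : Ordinal.omega0 + 1 < Ω := hΩ.succ_lt hM h1
  have h3 : (Ordinal.omega0 + 1 : Ordinal.{0}).toZFSet ∈ M := hM.toZFSet_mem_of_le h2.le hΩ.mem
  obtain ⟨g, g0, gD, gS, gM⟩ := hM.exists_omega_rec (S := fun x y => y.1 = insert x.1 x.1)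
    (Df.eq (PD.var 1) (PD.insert (PD.var 0) (PD.var 0))) hΩ.mem (by
      intro x hx
      obtain ⟨α, hα, hαx⟩ := Ordinal.mem_toZFSet_iff.1 hx
      have h4 : insert x.1 x.1 = (α + 1).toZFSet := by rw [Ordinal.toZFSet_add_one, hαx]
      have h5 : α + 1 < Ω := hΩ.succ_lt hM hα
      exact ⟨⟨insert x.1 x.1, hM.insert_mem x.2 x.2⟩, by
        show insert x.1 x.1 ∈ _
        rw [h4]
        exact Ordinal.toZFSet_mem_toZFSet_iff.2 h5, rfl⟩) (by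
      intro x y y' _ _ _ h4 h5
      exact Subtype.ext (h4.trans h5.symm)) ⟨_, h3⟩ (Ordinal.toZFSet_mem_toZFSet_iff.2 h2)
  have hg : ∀ n : ℕ, (g n).1 = (Ordinal.omega0 + 1 + n).toZFSet := by
    intro n
    induction n with
    | zero => rw [g0]; simp
    | succ n ih =>
      have h4 : (g (n + 1)).1 = insert (g n).1 (g n).1 := gS n
      rw [h4, ih, ← Ordinal.toZFSet_add_one, Nat.cast_succ, ← add_assoc]
  refine ⟨fun n => (g n).1, gM, ?_, ?_, ?_⟩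
  · intro m n hmn
    have h4 : (g m).1 = (g n).1 := hmn
    rw [hg, hg, toZFSet_inj] at h4
    have h5 := (add_right_inj _).1 h4
    exact_mod_cast h5
  · intro n
    refine ZFSet.mem_sep.2 ⟨gD n, ?_⟩
    show omZ ⊆ (g n).1
    rw [hg, card_omZ]
    refine Ordinal.toZFSet_subset_toZFSet_iff.2 ?_
    exact le_self_add.trans le_self_add
  · intro n
    show (∅ : ZFSet.{0}) ∈ (g n).1
    rw [hg]
    refine Ordinal.toZFSet_subset_toZFSet_iff.2 (le_self_add.trans le_self_add : Ordinal.omega0 ≤ _) ?_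
    rw [← card_omZ]
    exact ms_empty_omZ

theorem ms_tr {K ρ y F : ZFSet.{0}} (hy : (∅ : ZFSet.{0}) ∈ y) : (∅ : ZFSet.{0}) ∈ tr K ρ y F ↔
    ¬ ((∅ : ZFSet.{0}) ∈ F ↔ ZFSet.pair ρ ∅ ∈ K) := by
  rw [mem_tr]
  tauto

theorem ms_indep (h : St M κ Ω lam s G) {g : ℕ → ZFSet.{0}} (hg0 : ∀ n, (∅ : ZFSet.{0}) ∈ g n) {b b' : Prop}
    {μ n q q' : ZFSet.{0}} (hq : q ∈ G) (hq' : q' ∈ G) (h1 : MsQ b (seqZ g) μ n q)
    (h2 : MsQ b' (seqZ g) μ n q') : b ↔ b' := by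
  obtain ⟨u, hu, hu1, hu2⟩ := h.fr.gen.dir q hq q' hq'
  obtain ⟨K, -, -, hK⟩ := (mem_Ln.1 hu1).2.2
  obtain ⟨K', -, -, hK'⟩ := (mem_Ln.1 hu2).2.2
  have huC : IsC Ω s u := (ZFSet.mem_sep.1 (h.fr.gen.sub u hu)).2
  obtain ⟨_, _, F, hF, rfl, rfl, _, y, F', hF', rfl, hy, hb⟩ := h1
  obtain ⟨_, _, H, hH, rfl, rfl, _, y', H', hH', rfl, hy', hb'⟩ := h2
  obtain ⟨m, hm⟩ := mem_seqZ.1 hy
  rw [ZFSet.pair_inj] at hm
  obtain ⟨rfl, rfl⟩ := hm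
  have hyy := pair_mem_seqZ.1 hy'
  subst hyy
  have e1 := huC.fn _ _ _ _ (hK _ _ _ hF) (hK' _ _ _ hH)
  have e2 := huC.fn _ _ _ _ (hK _ _ _ hF') (hK' _ _ _ hH')
  have a1 : (∅ : ZFSet.{0}) ∈ tr K (row μ 0) omZ F ↔ (∅ : ZFSet.{0}) ∈ tr K' (row μ 0) omZ H := by rw [e1]
  have a2 : (∅ : ZFSet.{0}) ∈ tr K (row μ 0) (g m) F' ↔ (∅ : ZFSet.{0}) ∈ tr K' (row μ 0) (g m) H' := by rw [e2]
  rw [ms_tr ms_empty_omZ, ms_tr ms_empty_omZ] at a1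
  rw [ms_tr (hg0 m), ms_tr (hg0 m)] at a2
  tauto

theorem ms_fin {y : ZFSet.{0}} (hy : (∅ : ZFSet.{0}) ∈ y) (b : Prop) : ∃ z ∈ finS y, ((∅ : ZFSet.{0}) ∈ z ↔ b) := by
  by_cases hb : b
  · refine ⟨{∅}, mem_finS.2 ⟨?_, {∅}, fun z => by simp⟩, by simp [hb]⟩
    intro z hz
    rw [ZFSet.mem_singleton.1 hz]
    exact hy
  · exact ⟨∅, dx_empty y, by simp [hb]⟩

/-- Density. -/
theorem ms_dense {α p μ ν : ZFSet.{0}} (hω : Ordinal.omega0 ≤ Ω) (hα : α.IsOrdinal) (hp : p ∈ Sn Ω s α) (hμ : μ ∈ α)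
    (hν : ν ∈ α) (hμν : μ ≠ ν) (hom : omZ ∈ LvZ Ω) {g : ℕ → ZFSet.{0}} (hg : Function.Injective g)
    (hgL : ∀ n, g n ∈ LvZ Ω) (hg0 : ∀ n, (∅ : ZFSet.{0}) ∈ g n) :
    ∃ q ∈ Sn Ω s α, p ⊆ q ∧ ∃ n ∈ omZ, MsQ False (seqZ g) μ n q ∧ MsQ True (seqZ g) ν n q := by
  obtain ⟨p1, hp1, hpp1, F, hF⟩ := add_any (r := 0) hω hα hp hμ (by norm_num) (by norm_num) hom
  obtain ⟨p2, hp2, hpp2, H, hH⟩ := add_any (r := 0) hω hα hp1 hν (by norm_num) (by norm_num) hom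
  have hF2 := hpp2 hF
  obtain ⟨-, hfin, -⟩ := (mem_Sn hω).1 hp2
  have hn : ∃ n : ℕ, ∀ ρ z, ent ρ (g n) z ∉ p2 := by
    by_contra hcon
    push Not at hcon
    choose ρ w hρ using hcon
    have hinf : Set.Infinite {z | z ∈ p2} :=
      Set.infinite_of_injective_forall_mem (f := fun n => ent (ρ n) (g n) (w n))
        (fun m n h => hg (addx_ent h).2.1) hρ
    exact hinf (finZ_iff_finite.1 hfin)
  obtain ⟨n, hn⟩ := hn
  obtain ⟨F', hF'1, hF'2⟩ := ms_fin (hg0 n) (¬ (∅ : ZFSet.{0}) ∈ F)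
  obtain ⟨H', hH'1, hH'2⟩ := ms_fin (hg0 n) ((∅ : ZFSet.{0}) ∈ H)
  have hp3 := add_tree (r := 0) hω hα hp2 hμ (by norm_num) (by norm_num) (hgL n) hF'1
    (fun z' hz' => absurd hz' (hn _ _))
  have hp4 := add_tree (r := 0) hω hα hp3 hν (by norm_num) (by norm_num) (hgL n) hH'1 (by
    intro z' hz'
    rcases ZFSet.mem_insert_iff.1 hz' with h1 | h1
    · exact absurd (addx_row (addx_ent h1).1).1.symm hμν
    · exact absurd h1 (hn _ _))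
  have hs2 : p2 ⊆ insert (ent (row ν 0) (g n) H') (insert (ent (row μ 0) (g n) F') p2) :=
    fun e he => addx_sub (addx_sub he)
  refine ⟨_, hp4, fun e he => hs2 (hpp2 (hpp1 he)), natZ n, natZ_mem_omZ n, ?_, ?_⟩
  · exact ⟨_, _, F, hs2 hF2, rfl, rfl, _, g n, F', addx_sub (ZFSet.mem_insert_iff.2 (Or.inl rfl)), rfl,
      pair_mem_seqZ.2 rfl, by tauto⟩
  · exact ⟨_, _, H, hs2 hH, rfl, rfl, _, g n, H', ZFSet.mem_insert_iff.2 (Or.inl rfl), rfl,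
      pair_mem_seqZ.2 rfl, by tauto⟩

theorem exists_reals (h : St M κ Ω lam s G) :
    ∃ r ∈ ExtZ M G, (∀ z ∈ r, ∃ μ ∈ κ.toZFSet, ∃ n ∈ omZ, z = ZFSet.pair μ n) ∧
      ∀ μ ∈ κ.toZFSet, ∀ ν ∈ κ.toZFSet, μ ≠ ν → ∃ n ∈ omZ, ¬ (ZFSet.pair μ n ∈ r ↔ ZFSet.pair ν n ∈ r) := by
  have hM : CTM M := h.fr.hM
  have hN : CTM (ExtZ M G) := h.fr.ctm
  have hΩ : IsOm1 M Ω := h.bk.cv.hΩ
  have hω : Ordinal.omega0 ≤ Ω := om_le hM hΩ
  obtain ⟨g, hgM, hgi, hgL, hg0⟩ := ms_levels hM hΩ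
  obtain ⟨γ, hγ, hγ'⟩ := h.fr.mem_g
  have hgN : seqZ g ∈ ExtZ M G := h.fr.sub hgM
  have hom : omZ ∈ LvZ Ω := by
    refine ZFSet.mem_sep.2 ⟨?_, fun z hz => hz⟩
    rw [card_omZ]
    refine Ordinal.toZFSet_mem_toZFSet_iff.2 ?_
    rcases hω.lt_or_eq with h1 | h1
    · exact h1
    · exfalso
      refine hΩ.unc ?_
      rw [← h1, ← card_omZ]
      exact ctb_om hM
  have hr : ∀ μ n, ZFSet.pair μ n ∈ ZFSet.sep (fun z => ∃ μ n, z = ZFSet.pair μ n ∧ ∃ q ∈ γ,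
      MsQ False (seqZ g) μ n q) (ZFSet.prod κ.toZFSet omZ) ↔ μ ∈ κ.toZFSet ∧ n ∈ omZ ∧ ∃ q ∈ G,
      MsQ False (seqZ g) μ n q := by
    intro μ n
    rw [ZFSet.mem_sep, ZFSet.pair_mem_prod]
    constructor
    · rintro ⟨⟨h1, h2⟩, μ', n', h3, q, hq, h4⟩
      rw [ZFSet.pair_inj] at h3
      obtain ⟨rfl, rfl⟩ := h3
      exact ⟨h1, h2, q, (hγ' q).1 hq, h4⟩
    · rintro ⟨h1, h2, q, hq, h4⟩
      exact ⟨⟨h1, h2⟩, μ, n, rfl, q, (hγ' q).2 hq, h4⟩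
  refine ⟨ZFSet.sep (fun z => ∃ μ n, z = ZFSet.pair μ n ∧ ∃ q ∈ γ, MsQ False (seqZ g) μ n q)
      (ZFSet.prod κ.toZFSet omZ), ?_, ?_, ?_⟩
  · refine (PD.sep (hN := hN) (n := 0) (P := fun v z => ∃ μ n, z = ZFSet.pair μ n ∧ ∃ q ∈ γ,
      MsQ False (seqZ g) μ n q) (PD.prod (PD.const (h.fr.sub h.bk.cv.hκN)) PD.omZ) ?_).1 Fin.elim0
    refine Df.exPr (x := fun v : Fin 1 → ExtZ M G => (v (Fin.last 0)).1) (P := fun v μ n => ∃ q ∈ γ,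
      MsQ False (seqZ g) μ n q) (PD.var _) ?_
    refine Df.bex (P := fun (v : Fin 3 → ExtZ M G) q => MsQ False (seqZ g) (v (Fin.last 1).castSucc).1
      (v (Fin.last 2)).1 q) (PD.const hγ) ?_
    exact Df.MsQ False hgN (PD.var _) (PD.var _) (PD.var _)
  · intro z hz
    obtain ⟨μ, hμ, n, hn, rfl⟩ := ZFSet.mem_prod.1 (ZFSet.mem_sep.1 hz).1
    exact ⟨μ, hμ, n, hn, rfl⟩
  · intro μ hμ ν hν hμν
    obtain ⟨p, hp⟩ := h.fr.gen.ne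
    have hsub : κ.toZFSet ⊆ lam.toZFSet := Ordinal.toZFSet_subset_toZFSet_iff.2 h.bk.cv.hlamκ.le
    have hμM : μ ∈ M := hM.mem_of_mem h.bk.cv.hκN hμ
    have hνM : ν ∈ M := hM.mem_of_mem h.bk.cv.hκN hν
    obtain ⟨q, hq, n, hn, h1, h2⟩ := h.fr.gen_dfn (D := fun q : M => ∃ n ∈ omZ, MsQ False (seqZ g) μ n q.1 ∧
      MsQ True (seqZ g) ν n q.1) (by
        refine Df.bex (hN := h.fr.hM) (n := 1) (P := fun (v : Fin 1 → M) n => MsQ False (seqZ g) μ n (v 0).1 ∧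
          MsQ True (seqZ g) ν n (v 0).1) PD.omZ ?_
        exact Dfn.and (Df.MsQ False hgM (PD.const hμM) (PD.var _) (PD.var _))
          (Df.MsQ True hgM (PD.const hνM) (PD.var _) (PD.var _))) hp (by
        intro r hr
        obtain ⟨hrS, _, _⟩ := mem_Ln.1 hr
        obtain ⟨q, hq, hrq, h1⟩ := ms_dense hω (ZFSet.isOrdinal_toZFSet lam) hrS (hsub hμ) (hsub hν) hμν hom hgi
          hgL hg0
        exact ⟨⟨q, hM.mem_of_mem h.fr.hP hq⟩, mem_Ln.2 ⟨hq, hrS, LE.of_sub hrq⟩, h1⟩)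
    refine ⟨n, hn, fun h3 => ?_⟩
    have h4 := (hr ν n).1 (h3.1 ((hr μ n).2 ⟨hμ, hn, q.1, hq, h1⟩))
    obtain ⟨-, -, q', hq', h5⟩ := h4
    exact (ms_indep h hg0 hq hq' h2 h5).1 trivial

theorem not_meas {N : Set ZFSet.{0}} (hN : CTM N) (hκN : κ.toZFSet ∈ N) (hκ : Ordinal.omega0 < κ) {r : ZFSet.{0}}
    (hr : r ∈ N)
    (hr' : ∀ μ ∈ κ.toZFSet, ∀ ν ∈ κ.toZFSet, μ ≠ ν → ∃ n ∈ omZ, ¬ (ZFSet.pair μ n ∈ r ↔ ZFSet.pair ν n ∈ r)) :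
    ¬ IsMeasN N κ := by
  rintro ⟨U, hU, h1, h2, h3, h4, h5⟩
  have hX : PD hN (fun v : Fin 2 → N => ZFSet.sep (fun μ => ZFSet.pair μ (v 0).1 ∈ r) κ.toZFSet) :=
    PD.sep (P := fun (v : Fin 2 → N) μ => ZFSet.pair μ (v 0).1 ∈ r) (PD.const hκN)
      (Df.mem (PD.pair (PD.var _) (PD.var _)) (PD.const hr))
  obtain ⟨f, hf, hfn, hf'⟩ := Pool.Agent.H7.IG.exists_choice hN (F := fun n Y =>
    Y.1 = ZFSet.sep (fun μ => ZFSet.pair μ n.1 ∈ r) κ.toZFSet ∨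
      Y.1 = κ.toZFSet \ ZFSet.sep (fun μ => ZFSet.pair μ n.1 ∈ r) κ.toZFSet)
    (Dfn.or (Df.eq (PD.var 1) hX) (Df.eq (PD.var 1) (PD.sdiff (PD.const hκN) hX))) hN.omZ_mem hU (by
      intro n hn
      by_cases h6 : ZFSet.sep (fun μ => ZFSet.pair μ n.1 ∈ r) κ.toZFSet ∈ U
      · exact ⟨⟨_, hN.mem_of_mem hU h6⟩, h6, Or.inl rfl⟩
      · have h7 : ZFSet.sep (fun μ => ZFSet.pair μ n.1 ∈ r) κ.toZFSet ∈ N := hX.1 ![n, n]
        have h8 : κ.toZFSet \ ZFSet.sep (fun μ => ZFSet.pair μ n.1 ∈ r) κ.toZFSet ∈ U := by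
          by_contra h9
          exact h6 ((h2 _ h7 (fun z hz => (ZFSet.mem_sep.1 hz).1)).2 h9)
        exact ⟨⟨_, hN.mem_of_mem hU h8⟩, h8, Or.inr rfl⟩)
  rw [card_omZ] at hfn
  have h6 := h5 _ hκ f hf hfn
  have h7 : ∀ x ∈ ZFSet.sep (fun x => ∀ ξ X, ZFSet.pair ξ X ∈ f → x ∈ X) κ.toZFSet,
      ∀ y ∈ ZFSet.sep (fun x => ∀ ξ X, ZFSet.pair ξ X ∈ f → x ∈ X) κ.toZFSet, x = y := by
    intro x hx y hy
    rw [ZFSet.mem_sep] at hx hy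
    by_contra hxy
    obtain ⟨n, hn, h8⟩ := hr' x hx.1 y hy.1 hxy
    have hnN : n ∈ N := hN.mem_of_mem hN.omZ_mem hn
    rw [card_omZ] at hn
    obtain ⟨Y, hY, hnY⟩ := hfn.tot n hn
    have h9 := hx.2 n Y hnY
    have h10 := hy.2 n Y hnY
    rcases hf' ⟨n, hnN⟩ ⟨Y, hN.mem_of_mem hU hY⟩ hnY with h11 | h11
    · have h11 : Y = ZFSet.sep (fun μ => ZFSet.pair μ n ∈ r) κ.toZFSet := h11
      rw [h11, ZFSet.mem_sep] at h9 h10
      exact h8 ⟨fun _ => h10.2, fun _ => h9.2⟩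
    · have h11 : Y = κ.toZFSet \ ZFSet.sep (fun μ => ZFSet.pair μ n ∈ r) κ.toZFSet := h11
      rw [h11, ZFSet.mem_sdiff, ZFSet.mem_sep] at h9 h10
      exact h8 ⟨fun h => absurd ⟨h9.1, h⟩ h9.2, fun h => absurd ⟨h10.1, h⟩ h10.2⟩
  by_cases h8 : ∃ x, x ∈ ZFSet.sep (fun x => ∀ ξ X, ZFSet.pair ξ X ∈ f → x ∈ X) κ.toZFSet
  · obtain ⟨x, hx⟩ := h8
    have h9 : ZFSet.sep (fun x => ∀ ξ X, ZFSet.pair ξ X ∈ f → x ∈ X) κ.toZFSet = {x} := by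
      ext y
      rw [ZFSet.mem_singleton]
      constructor
      · intro hy
        exact h7 y hy x hx
      · rintro rfl
        exact hx
    rw [h9] at h6
    exact h4 x (ZFSet.mem_sep.1 hx).1 h6
  · push Not at h8
    have h9 : ZFSet.sep (fun x => ∀ ξ X, ZFSet.pair ξ X ∈ f → x ∈ X) κ.toZFSet = ∅ := by
      rw [ZFSet.eq_empty]
      exact h8
    rw [h9] at h6
    have h10 : κ.toZFSet ∈ U := h3 ∅ h6 κ.toZFSet hκN (ZFSet.empty_subset _) (fun z hz => hz)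
    have h11 := (h2 κ.toZFSet hκN (fun z hz => hz)).1 h10
    apply h11
    have h12 : κ.toZFSet \ κ.toZFSet = ∅ := by
      rw [ZFSet.eq_empty]
      intro z hz
      rw [ZFSet.mem_sdiff] at hz
      exact hz.2 hz.1
    rw [h12]
    exact h6

end Pool.Agent.H17.CF
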