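import Pool.Agent.H17.CF.G.Types
import Pool.Agent.H17.CF.G.Meas
import Pool.Agent.H17.CF.F.Asm
import Pool.Agent.H17.CF.C.Main
import Pool.Agent.H17.CF.D.Main
import Pool.Agent.H17.CF.E.Main

/-!
# MP_9b819f_lc: assembly
-/

set_option autoImplicit false
set_option linter.unusedVariables false

open Pool.Agent.H17.Omega Pool.Agent.H17.Omega.CTM Pool.Agent.H52.GC Pool.Agent.H7.IG

namespace Pool.Agent.H17.CF

/-- For every uncountable cardinal `κ` of a countable transitive model `M` of ZFC there is a generic extension `N`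
of `M` in which `κ` is a cardinal that is regular (a limit cardinal, of cofinality `ω`) if it was so in `M`, `κ` is
not measurable, and every finite complete second-order theory with a model of cardinality `κ` is categorical. -/
theorem final {M : Set ZFSet.{0}} (hM : CTM M) {κ : Ordinal.{0}} (hκ : Ordinal.omega0 < κ) (hc : IsCardN M κ) :
    ∃ P R g, Fr M P R g ∧ IsCardN (ExtZ M g) κ ∧ (IsRegN M κ → IsRegN (ExtZ M g) κ) ∧
      (IsLimN M κ → IsLimN (ExtZ M g) κ) ∧ (CofOmN M κ → CofOmN (ExtZ M g) κ) ∧ ¬ IsMeasN (ExtZ M g) κ ∧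
      CatAt (ExtZ M g) κ := by
  obtain ⟨Ω, lam, hcv⟩ := exists_cv hM hκ hc
  obtain ⟨M₁, s, hMM, hbk, hord, hseq, hone⟩ := C_main hcv
  have hM₁ := hbk.cv.hM
  obtain ⟨G, hG, -⟩ := exists_genZ hM₁ (Sn_mem hM₁ hbk.cv.hΩ.mem hbk.hs hbk.cv.hlamN)
    (Ln_mem hM₁ hbk.cv.hΩ.mem hbk.hs hbk.cv.hlamN hM₁.empty_mem) (Ln_pre lam.toZFSet ∅)
    (empty_mem_Sn (Ω := Ω) (s := s) lam.toZFSet)
  have h : St M₁ κ Ω lam s G := ⟨hbk, hG⟩
  obtain ⟨P, R, g, hg, hE⟩ := hone G hG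
  refine ⟨P, R, g, hg, ?_⟩
  rw [hE]
  obtain ⟨r, hr, -, hr'⟩ := exists_reals h
  obtain ⟨C⟩ := exists_cd h
  obtain ⟨w⟩ := D.D_main C
  exact ⟨card_up hM hMM hseq h le_rfl hc, reg_up hM hMM hseq h hκ hc.1, lim_up hM hMM hseq h, cof_up hMM h,
    not_meas hG.ctm (st_cv h).hκN hκ hr hr', PE.E_main hG.ctm (st_cv h).hκN (st_cv h).hκ w⟩

end Pool.Agent.H17.CF
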