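import Pool.Agent.H17.CF.G.Defs
import Pool.Agent.H17.CF.C.Defs
import Pool.Agent.H17.CF.F.Nam
import Pool.Agent.H7.IG.Tk8

/-!
# CF-G1: the hypotheses of the forcing, preservation of the types

`exists_cv`: let `M` be a ctm, `κ > ω` a cardinal of `M`. There are `Ω`, `lam` with `Cv M κ Ω lam`: `exists_om1` (H52/GC/Cnt) and
`exists_hartogs` (H7/IG/Tk8) for `X = κ`. `Ω ≤ κ`: otherwise `κ < Ω` is countable in `M` and `κ > ω` would not be a cardinal.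
`Onto` versus `Cvr`: `cvr_onto` (Tk4) and: an onto function covers.

`SeqM M M₁ κ`: every function of `M₁` from `κ` to an element of `M` is in `M`. Then every function of `M₁` from an ordinal
`α ≤ κ` to an element of `M` is in `M` (extend it by a constant value and restrict).

`card_up`: let `ν ≤ κ` be an infinite cardinal of `M` (`ω ≤ ν`). Then `ν` is a cardinal in `M[G]`: in `M₁` by `SeqM`, then `CC.card`
(`st_ccc` with `c = ∅`). Finite `ν` are cardinals in every ctm (`card_fin`: a finite ordinal is not the image of a smaller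
one).
`reg_up`, `lim_up`, `cof_up`: similarly (`CC.reg`). In `lim_up` use `card_up` for the cardinals `ν < κ` of `M`.

Status: complete (helper26).
-/

set_option autoImplicit false
set_option linter.unusedVariables false
set_option linter.unusedSectionVars false
set_option linter.unusedSimpArgs false
set_option linter.unusedTactic false
set_option linter.unreachableTactic false

open Pool.Agent.H17.Omega Pool.Agent.H17.Omega.CTM Pool.Agent.H52.GC Pool.Agent.H7.IG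

namespace Pool.Agent.H17.CF

variable {M M₁ : Set ZFSet.{0}} {κ Ω lam : Ordinal.{0}} {s : ZFSet.{0}} {G : Set ZFSet.{0}}

theorem ty_onto_cvr {N : Set ZFSet.{0}} {f A B : ZFSet.{0}} (hf : f ∈ N) (h : Onto f A B) : Cvr N A B := by
  refine ⟨f, hf, fun y _ x x' h1 h2 => ?_, h.2⟩
  exact (h.1.ap_eq h1).symm.trans (h.1.ap_eq h2)

theorem ty_card_cvr {N : Set ZFSet.{0}} (hN : CTM N) {ν : Ordinal.{0}} (hc : IsCardN N ν) :
    ∀ α < ν, ¬ Cvr N α.toZFSet ν.toZFSet := by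
  intro α hα hcv
  exact hc.2 α hα (cvr_onto hN (hN.toZFSet_mem_of_le hα.le hc.1) hc.1 hcv
    ⟨α.toZFSet, Ordinal.toZFSet_mem_toZFSet_iff.2 hα⟩)

theorem ty_card_of {N : Set ZFSet.{0}} {ν : Ordinal.{0}} (hν : ν.toZFSet ∈ N)
    (h : ∀ α < ν, ¬ Cvr N α.toZFSet ν.toZFSet) : IsCardN N ν :=
  ⟨hν, fun α hα hex => by
    obtain ⟨f, hf, hfo⟩ := hex
    exact h α hα (ty_onto_cvr hf hfo)⟩

theorem ty_fin {N : Set ZFSet.{0}} {ν α : Ordinal.{0}} (hν : ν < Ordinal.omega0) (hα : α < ν) :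
    ¬ Cvr N α.toZFSet ν.toZFSet := by
  rintro ⟨f, -, h1, h2⟩
  obtain ⟨n, rfl⟩ := Ordinal.lt_omega0.1 hν
  obtain ⟨m, rfl⟩ := Ordinal.lt_omega0.1 (hα.trans hν)
  have hmn : m < n := by exact_mod_cast hα
  have h3 : ∀ i : Fin n, ∃ k : ℕ, k < m ∧ ZFSet.pair (k : Ordinal.{0}).toZFSet ((i : ℕ) : Ordinal.{0}).toZFSet ∈ f := by
    intro i
    obtain ⟨y, hy, hyn⟩ := h2 ((i : ℕ) : Ordinal.{0}).toZFSet
      (Ordinal.toZFSet_mem_toZFSet_iff.2 (by exact_mod_cast i.2))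
    obtain ⟨o, ho, rfl⟩ := Ordinal.mem_toZFSet_iff.1 hy
    obtain ⟨k, rfl⟩ := Ordinal.lt_omega0.1 (ho.trans (Ordinal.natCast_lt_omega0 m))
    exact ⟨k, by exact_mod_cast ho, hyn⟩
  choose φ hφ hφ' using h3
  have hinj : Function.Injective (fun i => (⟨φ i, hφ i⟩ : Fin m)) := by
    intro i i' hii
    have h4 : φ i = φ i' := congrArg Fin.val hii
    have h5 := hφ' i'
    rw [← h4] at h5
    have h6 := h1 _ (Ordinal.toZFSet_mem_toZFSet_iff.2 (show ((φ i : ℕ) : Ordinal.{0}) < m by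
      exact_mod_cast hφ i)) _ _ (hφ' i) h5
    have h7 := Ordinal.toZFSet_injective h6
    exact Fin.ext (by exact_mod_cast h7)
  have := Fintype.card_le_of_injective _ hinj
  simp at this
  omega

/-- Functions of `M₁` from an ordinal `≤ κ` to an element of `M` are in `M`. -/
theorem ty_seq {M M₁ : Set ZFSet.{0}} {κ : Ordinal.{0}} (hM : CTM M) (hM₁ : CTM M₁) (hMM : M ⊆ M₁)
    (hseq : ∀ f ∈ M₁, ∀ A ∈ M, Fn f κ.toZFSet A → f ∈ M) (hκM : κ.toZFSet ∈ M) {α : Ordinal.{0}} (hα : α ≤ κ)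
    {f A : ZFSet.{0}} (hf : f ∈ M₁) (hA : A ∈ M) (hfn : Fn f α.toZFSet A) : f ∈ M := by
  have hαM : α.toZFSet ∈ M := hM.toZFSet_mem_of_le hα hκM
  have hsub : α.toZFSet ⊆ κ.toZFSet := by
    intro z hz
    obtain ⟨ζ, hζ, rfl⟩ := Ordinal.mem_toZFSet_iff.1 hz
    exact Ordinal.toZFSet_mem_toZFSet_iff.2 (hζ.trans_le hα)
  by_cases hne : ∃ a, a ∈ A
  · obtain ⟨a0, ha0⟩ := hne
    have ha0M : a0 ∈ M := hM.mem_of_mem hA ha0
    obtain ⟨g, hg, hg'⟩ := hM₁.exists_sep (P := fun z => z.1 ∈ (⟨f, hf⟩ : M₁).1 ∨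
        ∃ x y : M₁, z.1 = ZFSet.pair x.1 y.1 ∧ ¬ x.1 ∈ (⟨α.toZFSet, hMM hαM⟩ : M₁).1 ∧ y.1 = (⟨a0, hMM ha0M⟩ : M₁).1) (by
      (repeat' first
        | exact DT.var _ | exact DT.last | exact DT.const _ | assumption
        | refine Dfn.pairMem ?_ ?_ ?_ | refine Dfn.isPair ?_ ?_ ?_ | refine Dfn.mem ?_ ?_
        | refine Dfn.eqv ?_ ?_ | refine Dfn.eq ?_ ?_ | refine Dfn.subset ?_ ?_
        | refine Dfn.isEmpty ?_ | refine Dfn.isTrans ?_ | refine Dfn.isOrd ?_ | refine Dfn.isNat ?_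
        | refine Dfn.and ?_ ?_ | refine Dfn.or ?_ ?_ | refine Dfn.iff ?_ ?_ | refine Dfn.not ?_
        | refine Dfn.imp ?_ ?_ | refine Dfn.all ?_ | refine Dfn.ex ?_ | exact Dfn.false'
        | refine Dfn.ballZ ?_ ?_ | refine Dfn.bexZ ?_ ?_ | exact Dfn.const _))
      (hM₁.prod_mem (hMM hκM) (hMM hA))
    have hgp : ∀ x y, ZFSet.pair x y ∈ g ↔ ZFSet.pair x y ∈ f ∨ (x ∈ κ.toZFSet ∧ x ∉ α.toZFSet ∧ y = a0) := by
      intro x y
      rw [hg', ZFSet.pair_mem_prod]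
      constructor
      · rintro ⟨⟨h1, h2⟩, _, h3 | ⟨x', y', h3, h4, h5⟩⟩
        · exact Or.inl h3
        · rw [ZFSet.pair_inj] at h3
          right
          refine ⟨h1, ?_, ?_⟩
          · rw [h3.1]; exact h4
          · rw [h3.2]; exact h5
      · rintro (h1 | ⟨h1, h2, h3⟩)
        · obtain ⟨x', hx', y', hy', h2⟩ := hfn.sub _ h1
          rw [ZFSet.pair_inj] at h2
          refine ⟨⟨?_, ?_⟩, hM₁.mem_of_mem hf h1, Or.inl h1⟩
          · rw [h2.1]; exact hsub hx'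
          · rw [h2.2]; exact hy'
        · have hx := hM.mem_of_mem hκM h1
          refine ⟨⟨h1, by rw [h3]; exact ha0⟩, hM₁.pair_mem (hMM hx) (by rw [h3]; exact hMM ha0M), Or.inr ?_⟩
          exact ⟨⟨x, hMM hx⟩, ⟨y, by rw [h3]; exact hMM ha0M⟩, rfl, h2, h3⟩
    have hgfn : Fn g κ.toZFSet A := by
      refine ⟨?_, ?_, ?_⟩
      · intro z hz
        obtain ⟨x, hx, y, hy, h1⟩ := ZFSet.mem_prod.1 ((hg' z).1 hz).1
        exact ⟨x, hx, y, hy, h1⟩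
      · intro x hx
        by_cases hxα : x ∈ α.toZFSet
        · obtain ⟨y, hy, hxy⟩ := hfn.tot x hxα
          exact ⟨y, hy, (hgp x y).2 (Or.inl hxy)⟩
        · exact ⟨a0, ha0, (hgp x a0).2 (Or.inr ⟨hx, hxα, rfl⟩)⟩
      · intro x hx y hy y' hy' h1 h2
        have hfx : ∀ y, ZFSet.pair x y ∈ f → x ∈ α.toZFSet := by
          intro y h
          obtain ⟨x', hx', y', _, h2⟩ := hfn.sub _ h
          rw [ZFSet.pair_inj] at h2
          rw [h2.1]; exact hx'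
        rcases (hgp x y).1 h1 with h1 | ⟨_, h1, h1'⟩ <;> rcases (hgp x y').1 h2 with h2 | ⟨_, h2, h2'⟩
        · exact (hfn.ap_eq h1).symm.trans (hfn.ap_eq h2)
        · exact absurd (hfx _ h1) h2
        · exact absurd (hfx _ h2) h1
        · rw [h1', h2']
    have hgM : g ∈ M := hseq g hg A hA hgfn
    have hfe : f = rs g α.toZFSet := by
      ext z
      constructor
      · intro hz
        obtain ⟨x, hx, y, hy, h1⟩ := hfn.sub z hz
        rw [h1, pair_mem_rs]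
        rw [h1] at hz
        exact ⟨hx, (hgp x y).2 (Or.inl hz)⟩
      · intro hz
        have hz' := hz
        rw [rs, ZFSet.mem_sep] at hz'
        obtain ⟨_, x, hx, y, h1⟩ := hz'
        rw [h1] at hz ⊢
        rcases (hgp x y).1 (pair_mem_rs.1 hz).2 with h2 | ⟨_, h2, _⟩
        · exact h2
        · exact absurd hx h2
    rw [hfe]
    exact rs_mem hM hgM hαM
  · push Not at hne
    have hfe : f = ∅ := by
      rw [ZFSet.eq_empty]
      intro z hz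
      obtain ⟨_, _, y, hy, _⟩ := hfn.sub z hz
      exact hne y hy
    rw [hfe]
    exact hM.empty_mem

theorem exists_cv (hM : CTM M) (hκ : Ordinal.omega0 < κ) (hc : IsCardN M κ) : ∃ Ω lam, Cv M κ Ω lam := by
  obtain ⟨Ω, hΩ⟩ := exists_om1 hM
  obtain ⟨lam, h1, h2, h3⟩ := exists_hartogs hM hc.1
  have hsub : ∀ {a b : Ordinal.{0}}, a ≤ b → a.toZFSet ⊆ b.toZFSet := by
    intro a b hab z hz
    obtain ⟨ζ, hζ, rfl⟩ := Ordinal.mem_toZFSet_iff.1 hz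
    exact Ordinal.toZFSet_mem_toZFSet_iff.2 (hζ.trans_le hab)
  refine ⟨Ω, lam, hM, hc.1, hκ.le, ty_card_cvr hM hc, hΩ, ?_, h1, ?_, h2, h3⟩
  · by_contra hlt
    rw [not_le] at hlt
    have h4 := (ctb_iff_cvr' hM).1 (hΩ.ctb κ hlt)
    rw [pres_omZ] at h4
    exact ty_card_cvr hM hc _ hκ h4
  · by_contra hle
    rw [not_lt] at hle
    exact h2 (cvr_of_subset hM hc.1 (hsub hle))

theorem ty_kM {M M₁ : Set ZFSet.{0}} {κ : Ordinal.{0}} (hM : CTM M) (hM₁ : CTM M₁)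
    (hseq : ∀ f ∈ M₁, ∀ A ∈ M, Fn f κ.toZFSet A → f ∈ M) (hκM₁ : κ.toZFSet ∈ M₁) : κ.toZFSet ∈ M := by
  have h0 : natZ 0 ∈ natZ 1 := mem_natZ.2 ⟨0, by omega, rfl⟩
  have h1 : ∀ y, y ∈ natZ 1 → y = natZ 0 := by
    intro y hy
    obtain ⟨k, hk, rfl⟩ := mem_natZ.1 hy
    have : k = 0 := by omega
    rw [this]
  have hg : ZFSet.prod κ.toZFSet (natZ 1) ∈ M := by
    refine hseq _ (hM₁.prod_mem hκM₁ (hM₁.natZ_mem_N 1)) (natZ 1) (hM.natZ_mem_N 1) ⟨?_, ?_, ?_⟩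
    · intro z hz
      obtain ⟨x, hx, y, hy, h1⟩ := ZFSet.mem_prod.1 hz
      exact ⟨x, hx, y, hy, h1⟩
    · intro x hx
      exact ⟨_, h0, ZFSet.pair_mem_prod.2 ⟨hx, h0⟩⟩
    · intro x _ y hy y' hy' _ _
      rw [h1 y hy, h1 y' hy']
  obtain ⟨b, hb, hb'⟩ := hM.exists_repl (F := fun z x => ∃ y : M, z.1 = ZFSet.pair x.1 y.1) (by
    (repeat' first
      | exact DT.var _ | exact DT.last | exact DT.const _ | assumption
      | refine Dfn.isPair ?_ ?_ ?_ | refine Dfn.ex ?_)) hg (by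
    rintro z _ x x' ⟨y, h2⟩ ⟨y', h3⟩
    rw [h2, ZFSet.pair_inj] at h3
    exact Subtype.ext h3.1)
  have : b = κ.toZFSet := by
    ext x
    constructor
    · intro hx
      obtain ⟨z, hz, y, h2⟩ := (hb' ⟨x, hM.mem_of_mem hb hx⟩).1 hx
      rw [h2] at hz
      exact (ZFSet.pair_mem_prod.1 hz).1
    · intro hx
      have h2 : ZFSet.pair x (natZ 0) ∈ ZFSet.prod κ.toZFSet (natZ 1) := ZFSet.pair_mem_prod.2 ⟨hx, h0⟩
      have h3 := hM.mem_of_mem hg h2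
      have h4 := hM.of_pair_mem h3
      exact (hb' ⟨x, h4.1⟩).2 ⟨⟨_, h3⟩, h2, ⟨_, h4.2⟩, rfl⟩
  rw [← this]
  exact hb

theorem card_up (hM : CTM M) (hMM : M ⊆ M₁) (hseq : ∀ f ∈ M₁, ∀ A ∈ M, Fn f κ.toZFSet A → f ∈ M)
    (h : St M₁ κ Ω lam s G) {ν : Ordinal.{0}} (hν : ν ≤ κ) (hc : IsCardN M ν) : IsCardN (ExtZ M₁ G) ν := by
  have hM₁ := h.fr.hM
  have hνM₁ := hMM hc.1
  have hνN := h.fr.sub hνM₁
  have hκM : κ.toZFSet ∈ M := ty_kM hM hM₁ hseq h.bk.cv.hκN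
  refine ty_card_of hνN ?_
  rcases lt_or_ge ν Ordinal.omega0 with hω | hω
  · exact fun α hα => ty_fin hω hα
  · refine CC.card h.fr (st_ccc h le_rfl (Or.inl rfl)) hνM₁ hω ?_
    intro α hα hcv
    obtain ⟨f, hf, hfo⟩ := cvr_onto hM₁ (hM₁.toZFSet_mem_of_le hα.le hνM₁) hνM₁ hcv
      ⟨α.toZFSet, Ordinal.toZFSet_mem_toZFSet_iff.2 hα⟩
    exact hc.2 α hα ⟨f, ty_seq hM hM₁ hMM hseq hκM (hα.le.trans hν) hf hc.1 hfo.1, hfo⟩

theorem reg_up (hM : CTM M) (hMM : M ⊆ M₁) (hseq : ∀ f ∈ M₁, ∀ A ∈ M, Fn f κ.toZFSet A → f ∈ M)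
    (h : St M₁ κ Ω lam s G) (hκ : Ordinal.omega0 < κ) (hκM : κ.toZFSet ∈ M) (hr : IsRegN M κ) : IsRegN (ExtZ M₁ G) κ := by
  refine CC.reg h.fr (st_ccc h le_rfl (Or.inl rfl)) (hMM hκM) hκ ?_
  intro α hα f hf hfn
  exact hr α hα f (ty_seq hM h.fr.hM hMM hseq hκM hα.le hf hκM hfn) hfn

theorem lim_up (hM : CTM M) (hMM : M ⊆ M₁) (hseq : ∀ f ∈ M₁, ∀ A ∈ M, Fn f κ.toZFSet A → f ∈ M)
    (h : St M₁ κ Ω lam s G) (hl : IsLimN M κ) : IsLimN (ExtZ M₁ G) κ := by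
  intro α hα
  obtain ⟨ν, h1, h2, h3⟩ := hl α hα
  exact ⟨ν, h1, h2, card_up hM hMM hseq h h2.le h3⟩

theorem cof_up (hMM : M ⊆ M₁) (h : St M₁ κ Ω lam s G) (hl : CofOmN M κ) : CofOmN (ExtZ M₁ G) κ := by
  obtain ⟨f, hf, hfn, h1⟩ := hl
  exact ⟨f, h.fr.sub (hMM hf), hfn, h1⟩

end Pool.Agent.H17.CF
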